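import Pool.Agent.MP_8c5ed8_co.Mg.Semigroup

namespace Pool.Agent.Results.MP_8c5ed8_co.Limit

open Pool.Agent.MP_8c5ed8_co

theorem result :
    Filter.Tendsto (fun n : ℕ => (numSemigroupPartitionsUpTo n : ℝ) / (numPartitionsUpTo n : ℝ))
      Filter.atTop (nhds 0) :=
  tendsto_ratio

end Pool.Agent.Results.MP_8c5ed8_co.Limit
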